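import Pool.Agent.H57.FsA

set_option autoImplicit false

namespace Pool.Agent.Results.MP_711cdf_lc.NoFreeSet

open Cardinal Ordinal Order

/-- Under GCH some admissible set mapping on `ω_(ω+1)` has only free sets of size at most `ℵ_ω`. -/
theorem result (gch : ∀ c : Cardinal.{0}, ℵ₀ ≤ c → 2 ^ c = succ c) :
    ∃ f : (ω_ (ω + 1) : Ordinal.{0}).ToType → Set (ω_ (ω + 1) : Ordinal.{0}).ToType,
      (∀ a, a ∉ f a) ∧ (∀ a, #(f a) ≤ ℵ_ ω) ∧ (∀ a b, a ≠ b → #(f a ∩ f b : Set _) < ℵ_ ω) ∧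
      ∀ Y : Set (ω_ (ω + 1) : Ordinal.{0}).ToType,
        (∀ a ∈ Y, ∀ b ∈ Y, a ≠ b → b ∉ f a) → #Y ≤ ℵ_ ω := by
  have R : H82.LadA.Reg (ω_ (ω + 1) : Ordinal.{0}).ToType (succ (ℵ_ ω)) := by
    rw [← ord_aleph, aleph_add_one]
    exact H82.LadA.reg_toType (isRegular_succ (aleph0_le_aleph _))
  obtain ⟨f, h1, h⟩ := H57.Fs.main R (gch _ (aleph0_le_aleph _)) (ν := fun m => ℵ_ m)
    (fun _ => aleph0_le_aleph _) (fun m => by
      rw [gch _ (aleph0_le_aleph _), succ_aleph, Nat.cast_succ])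
    (fun m => aleph_lt_aleph.2 (natCast_lt_omega0 m)) (by
      rw [aleph_limit isSuccLimit_omega0]
      refine ciSup_le' fun ⟨a, ha⟩ => ?_
      obtain ⟨m, rfl⟩ := lt_omega0.1 ha
      exact le_sum (fun m : ℕ => ℵ_ m) m)
  exact ⟨f, fun a ha => lt_irrefl a (h1 a ha), h⟩

end Pool.Agent.Results.MP_711cdf_lc.NoFreeSet
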